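import Pool.Agent.DQ2.Stmts

/-!
# DQ2, row LFD: the field `L` (MP_366d03_ag)
-/

set_option autoImplicit false

open MvPolynomial

namespace Pool.Agent.DQ2.H32

open Pool.Agent.DQ2

theorem val_eq (n d k : ℕ) (E : Type) [Field E] [Algebra (LDP.KK n d) E] (s : E) :
    aeval (pt (n + 2) (s ^ k)) (LDP.FK n d) = Polynomial.aeval s (fK n d k) := by
  set θ : LDP.AA n d →+* E :=
    (algebraMap (LDP.KK n d) E).comp (algebraMap (LDP.AA n d) (LDP.KK n d)) with hθ
  set ψ : Polynomial (LDP.AA n d) →+* E := Polynomial.eval₂RingHom θ s with hψ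
  have h1 : aeval (pt (n + 2) (s ^ k)) (LDP.FK n d) =
      eval₂ θ (pt (n + 2) (s ^ k)) (LDP.FA n d) := by
    rw [aeval_def, LDP.FK, eval₂_map]
  have h2 : Polynomial.aeval s (fK n d k) = ψ (fk n d k) := by
    rw [Polynomial.aeval_def, fK, Polynomial.eval₂_map, hψ, Polynomial.coe_eval₂RingHom]
  have h3 : ψ.comp (Polynomial.C : LDP.AA n d →+* Polynomial (LDP.AA n d)) = θ := by
    apply RingHom.ext
    intro a
    rw [RingHom.comp_apply, hψ, Polynomial.coe_eval₂RingHom, Polynomial.eval₂_C]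
  have h4 : ψ ∘ (pt (n + 2) ((Polynomial.X : Polynomial (LDP.AA n d)) ^ k)) =
      pt (n + 2) (s ^ k) := by
    funext j
    rw [Function.comp_apply]
    unfold pt
    by_cases h0 : j.1 = 0
    · rw [if_pos h0, if_pos h0, map_pow, hψ, Polynomial.coe_eval₂RingHom, Polynomial.eval₂_X]
    · rw [if_neg h0, if_neg h0]
      by_cases h1 : j.1 = 1
      · rw [if_pos h1, if_pos h1, map_one]
      · rw [if_neg h1, if_neg h1, map_zero]
  rw [h1, h2, fk, eval_map, eval₂_comp_left, h3, h4]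

theorem lfd (hfld : FLD) : LFD := by
  intro n d k hd hk
  refine ⟨?_, fun E _ _ s => val_eq n d k E s⟩
  obtain ⟨hm, hdeg, hirr⟩ := hfld n d k hd hk
  have : Fact (Irreducible (fK n d k)) := ⟨hirr⟩
  have hne : fK n d k ≠ 0 := hirr.ne_zero
  have hnd : (fK n d k).natDegree = k * d := by
    rw [← hdeg]
    exact hm.natDegree_map _
  refine ⟨AdjoinRoot (fK n d k), inferInstance, inferInstance, AdjoinRoot.root (fK n d k),
    (AdjoinRoot.powerBasis hne).finite, ?_, ?_⟩
  · rw [(AdjoinRoot.powerBasis hne).finrank, AdjoinRoot.powerBasis_dim, hnd]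
  · rw [Polynomial.aeval_def]
    exact AdjoinRoot.eval₂_root (fK n d k)

end Pool.Agent.DQ2.H32
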